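import Pool.Agent.P.MP_1b1bb8_nt.Gap
import Pool.Agent.P.MP_1b1bb8_nt.LSSparse

open Finset Real Filter

namespace Pool.Agent.Results.MP_1b1bb8_nt.SparseMedium

open Pool.Agent.P.MP_1b1bb8_nt

theorem sum_log_le {n x : ℕ} (hn : n ≠ 0) (hx : n < x) :
    ∑ p ∈ n.primeFactors, log (p : ℝ) ≤ log x := by
  have h1 : ∏ p ∈ n.primeFactors, p ≤ x :=
    (Nat.le_of_dvd (Nat.pos_of_ne_zero hn) (Nat.prod_primeFactors_dvd n)).trans hx.le
  have h2 : ∀ p ∈ n.primeFactors, (0 : ℝ) < p := fun p hp => by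
    exact_mod_cast (Nat.prime_of_mem_primeFactors hp).pos
  rw [← log_prod fun p hp => (h2 p hp).ne']
  refine log_le_log (prod_pos h2) ?_
  rw [← Nat.cast_prod]
  exact Nat.cast_le.mpr h1

theorem result : ∃ c : ℝ, 0 < c ∧ ∃ x₀ : ℕ, ∀ x : ℕ, x₀ ≤ x → ∀ n₁ n₂ : ℕ, n₁ < x → n₂ < x →
    Nat.Coprime n₁ n₂ →
    ∑ p ∈ n₂.primeFactors.filter (fun p : ℕ =>
        Real.log x ^ (19 / 50 : ℝ) < (p : ℝ) ∧ (p : ℝ) ≤ Real.log x / 2),
      1 / ((p : ℝ) * Real.log (Real.log x / p)) ≤ c / Real.log (Real.log x) →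
    ((min (J n₁) (J n₂) : ℕ) : ℝ) ≤ Real.log x := by
  obtain ⟨c, hc, h⟩ := LS.sparse_core
  have t1 : Tendsto (fun x : ℕ => log (x : ℝ)) atTop atTop :=
    tendsto_log_atTop.comp tendsto_natCast_atTop_atTop
  refine ⟨c, hc, eventually_atTop.mp ?_⟩
  filter_upwards [t1.eventually h, t1.eventually_ge_atTop 0] with x hx hx0 n₁ n₂ h₁ h₂ hco hm
  by_contra hcon
  have e3 : ⌊log (x : ℝ)⌋₊ < min (J n₁) (J n₂) := by
    rw [Nat.floor_lt hx0]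
    exact not_le.mp hcon
  obtain ⟨n1, N, hN⟩ := run_of_lt_J (lt_min_iff.mp e3).1
  obtain ⟨n2, N', hN'⟩ := run_of_lt_J (lt_min_iff.mp e3).2
  exact hx _ _ (fun p hp => Nat.prime_of_mem_primeFactors hp)
    (fun p hp => Nat.prime_of_mem_primeFactors hp) hco.disjoint_primeFactors (sum_log_le n1 h₁)
    (sum_log_le n2 h₂) hm N N' hN hN'

end Pool.Agent.Results.MP_1b1bb8_nt.SparseMedium
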