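import Pool.Agent.P.MP_1b1bb8_nt.AsymCore

open Finset Real Filter

namespace Pool.Agent.Results.MP_1b1bb8_nt.Tradeoff

open Pool.Agent.P.MP_1b1bb8_nt

theorem result (v a c : ℝ) (hv : 0 < v) (hv1 : v ≤ 1) (ha : a * (v * (1 + Real.log (1 / v))) < 1)
    (hc : c < v * Real.exp Real.eulerMascheroniConstant) :
    ∃ x₀ : ℕ, ∀ x : ℕ, x₀ ≤ x → ∃ n₁ n₂ : ℕ, n₁ ≠ n₂ ∧ n₁ < x ∧ n₂ < x ∧ Nat.Coprime n₁ n₂ ∧
      a * Real.log x < (J n₁ : ℝ) ∧
      c * Real.log x * Real.log (Real.log (Real.log (Real.log x)))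
        / Real.log (Real.log (Real.log x)) < (J n₂ : ℝ) := by
  have h0 : v * (1 + log (1 / v)) ≤ 1 := by
    have := mul_le_mul_of_nonneg_left (log_le_sub_one_of_pos (one_div_pos.mpr hv)) hv.le
    rw [mul_sub, mul_one_div_cancel hv.ne'] at this
    linarith
  have h1 : max a (1 / 2) * v * (1 + log (1 / v)) < 1 := by
    rw [mul_assoc]
    rcases max_choice a (1 / 2) with h | h <;> rw [h] <;> linarith
  have t1 : Tendsto (fun x : ℕ => log (x : ℝ)) atTop atTop :=
    tendsto_log_atTop.comp tendsto_natCast_atTop_atTop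
  have t3 := tendsto_log_atTop.comp (tendsto_log_atTop.comp t1)
  refine eventually_atTop.mp ?_
  filter_upwards [t1.eventually (asym_core hv hv1 (lt_max_of_lt_right one_half_pos) h1
      (le_max_right c 0) (max_lt hc (mul_pos hv (exp_pos _)))),
    t1.eventually_ge_atTop 0, t3.eventually_ge_atTop 1, eventually_gt_atTop 0]
    with x hx hx1 hx3 hx0
  obtain ⟨n₁, n₂, h1, h2, hco, J1, J2⟩ := hx
  simp only [Function.comp] at hx3
  rw [exp_log (by exact_mod_cast hx0), Nat.cast_lt] at h1 h2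
  have e0 : 0 ≤ log (log (log (log (x : ℝ)))) := log_nonneg hx3
  refine ⟨n₁, n₂, fun h => ?_, h1, h2, hco,
    (mul_le_mul_of_nonneg_right (le_max_left _ _) hx1).trans_lt J1, lt_of_le_of_lt ?_ J2⟩
  · subst h
    rw [Nat.coprime_self] at hco
    subst hco
    rw [show J 1 = 0 by decide +kernel, Nat.cast_zero] at J1
    exact absurd J1 (not_lt.mpr (mul_nonneg (le_max_of_le_right one_half_pos.le) hx1))
  · have := le_max_left c 0
    gcongr

end Pool.Agent.Results.MP_1b1bb8_nt.Tradeoff
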