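import Pool.Agent.P.MP_1b1bb8_nt.Gap
import Pool.Agent.P.MP_1b1bb8_nt.LSPair

open Finset Real Filter

namespace Pool.Agent.Results.MP_1b1bb8_nt.UpperExponent

open Pool.Agent.P.MP_1b1bb8_nt

theorem card_le {n x : ℕ} (hn : n ≠ 0) (hx : n < x) : (n.primeFactors.card : ℝ) ≤ 2 * log x := by
  have h1 : 2 ^ n.primeFactors.card ≤ n :=
    (Finset.pow_card_le_prod _ _ 2 fun p hp => (Nat.prime_of_mem_primeFactors hp).two_le).trans
      (Nat.le_of_dvd (Nat.pos_of_ne_zero hn) (Nat.prod_primeFactors_dvd n))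
  have h2 : (2 : ℝ) ^ n.primeFactors.card ≤ x := by exact_mod_cast h1.trans hx.le
  have h3 := log_le_log (by positivity) h2
  rw [log_pow] at h3
  have h4 : (0 : ℝ) ≤ n.primeFactors.card := Nat.cast_nonneg _
  nlinarith [log_two_gt_d9]

theorem result (β : ℝ) (hβ : 26 / 21 < β) :
    ∃ x₀ : ℕ, ∀ x : ℕ, x₀ ≤ x → ∀ n₁ n₂ : ℕ, n₁ < x → n₂ < x → Nat.Coprime n₁ n₂ →
      ((min (J n₁) (J n₂) : ℕ) : ℝ) ≤ Real.log x ^ β := by
  have β0 : 0 < β := by linarith
  obtain ⟨θ, h1, h2⟩ := exists_between (show 1 / β < 21 / 26 by rw [div_lt_iff₀ β0]; linarith)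
  have θ0 : 0 < θ := lt_trans (by positivity) h1
  rw [div_lt_iff₀ β0] at h1
  have t1 : Tendsto (fun x : ℕ => log (x : ℝ)) atTop atTop :=
    tendsto_log_atTop.comp tendsto_natCast_atTop_atTop
  have t2 := (tendsto_rpow_atTop β0).comp t1
  have t3 := (tendsto_log_atTop.comp t1).const_mul_atTop (sub_pos.mpr h1)
  refine eventually_atTop.mp ?_
  filter_upwards [(tendsto_nat_floor_atTop.comp t2).eventually (LS.pair_core h2),
    t1.eventually_gt_atTop 0, t2.eventually_ge_atTop 2, t3.eventually_ge_atTop 2]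
    with x hx hL e1 e2 n₁ n₂ h₁ h₂ hco
  simp only [Function.comp] at hx e1 e2
  by_contra hcon
  have e3 : ⌊log (x : ℝ) ^ β⌋₊ < min (J n₁) (J n₂) := by
    rw [Nat.floor_lt (by linarith)]
    exact not_le.mp hcon
  obtain ⟨n1, N, hN⟩ := run_of_lt_J (lt_min_iff.mp e3).1
  obtain ⟨n2, N', hN'⟩ := run_of_lt_J (lt_min_iff.mp e3).2
  have e4 : 2 * log (x : ℝ) ≤ exp (θ * log (⌊log (x : ℝ) ^ β⌋₊ : ℕ)) := by
    have e5 := log_le_log (by linarith) (show log (x : ℝ) ^ β / 2 ≤ ⌊log (x : ℝ) ^ β⌋₊ by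
      linarith [Nat.lt_floor_add_one (log (x : ℝ) ^ β)])
    rw [log_div (by linarith) two_ne_zero, log_rpow hL] at e5
    rw [← log_le_iff_le_exp (by linarith), log_mul two_ne_zero hL.ne']
    nlinarith [mul_le_mul_of_nonneg_left e5 θ0.le, log_two_lt_d9, log_two_gt_d9]
  exact hx _ _ (fun p hp => Nat.prime_of_mem_primeFactors hp)
    (fun p hp => Nat.prime_of_mem_primeFactors hp) hco.disjoint_primeFactors
    ((card_le n1 h₁).trans e4) ((card_le n2 h₂).trans e4) N N' hN hN'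

end Pool.Agent.Results.MP_1b1bb8_nt.UpperExponent
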